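import Pool.Agent.Helper623.Ap.ApB
set_option autoImplicit false
open scoped ENNReal Topology
open Filter

namespace Pool.Agent.Helper623.ApNoBap

namespace Data

variable (D : Data)

/-- the limit coordinates in block l -/
noncomputable def phi (l g : ℕ) (x : Y) : ℝ := x (D.e.symm (l, 0, g)) / D.w l g

lemma phi_add (l g : ℕ) (x y : Y) : D.phi l g (x + y) = D.phi l g x + D.phi l g y := by
  unfold phi
  rw [lp.coeFn_add, Pi.add_apply, add_div]

lemma phi_smul (l g : ℕ) (c : ℝ) (x : Y) : D.phi l g (c • x) = c * D.phi l g x := by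
  unfold phi
  rw [lp.coeFn_smul, Pi.smul_apply, smul_eq_mul, mul_div_assoc]

lemma phi_sub (l g : ℕ) (x y : Y) : D.phi l g (x - y) = D.phi l g x - D.phi l g y := by
  unfold phi
  rw [lp.coeFn_sub, Pi.sub_apply, sub_div]

lemma phi_sum {ι : Type} (s : Finset ι) (l g : ℕ) (f : ι → Y) :
    D.phi l g (∑ i ∈ s, f i) = ∑ i ∈ s, D.phi l g (f i) := by
  classical
  induction s using Finset.induction_on with
  | empty => simp [phi]
  | insert a s ha ih => rw [Finset.sum_insert ha, Finset.sum_insert ha, phi_add, ih]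

lemma abs_phi_le_w (l g : ℕ) (x : Y) : |D.phi l g x| ≤ ‖x‖ / D.w l g := by
  unfold phi
  rw [abs_div, abs_of_pos (D.w_pos l g)]
  exact div_le_div_of_nonneg_right (abs_le_norm x _) (D.w_pos l g).le

lemma abs_phi_le (l g : ℕ) (x : Y) : |D.phi l g x| ≤ ‖x‖ / D.eps l :=
  (D.abs_phi_le_w l g x).trans
    (div_le_div_of_nonneg_left (norm_nonneg _) (D.heps l) (D.hw l g))

lemma phi_J (l l' k g : ℕ) (y : Y) :
    D.phi l g (D.J l' k y) = if l' = l then y g else 0 := by
  unfold phi
  rw [J_apply, Equiv.apply_symm_apply]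
  unfold jc
  rw [Equiv.apply_symm_apply]
  simp only [if_true]
  have hw := (D.w_pos l g).ne'
  by_cases h : l' = l
  · subst h
    simp only [if_true]
    field_simp
  · have h' : ¬ l = l' := fun h1 => h h1.symm
    simp [h, h']

lemma summable_phi (l h : ℕ) (x : Y) : Summable (fun g => D.phi l g x * D.A g h) := by
  refine Summable.of_norm_bounded (g := fun g => (‖x‖ / D.eps l) * D.r g) (D.hr.mul_left _)
    (fun g => ?_)
  rw [Real.norm_eq_abs, abs_mul]
  exact mul_le_mul (D.abs_phi_le l g x) (D.hA g h) (abs_nonneg _)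
    (div_nonneg (norm_nonneg _) (D.heps l).le)

noncomputable def Phi (l h : ℕ) : Y →L[ℝ] ℝ :=
  LinearMap.mkContinuous
    { toFun := fun x => ∑' g, D.phi l g x * D.A g h
      map_add' := fun x y => by
        rw [← (D.summable_phi l h x).tsum_add (D.summable_phi l h y)]
        refine tsum_congr (fun g => ?_)
        rw [phi_add, add_mul]
      map_smul' := fun c x => by
        rw [RingHom.id_apply, smul_eq_mul, ← tsum_mul_left]
        refine tsum_congr (fun g => ?_)
        rw [phi_smul, mul_assoc] } (1 / D.eps l * ∑' g, D.r g) (fun x => by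
        show ‖∑' g, D.phi l g x * D.A g h‖ ≤ _
        have h1 : ∀ g, ‖D.phi l g x * D.A g h‖ ≤ (‖x‖ / D.eps l) * D.r g := fun g => by
          rw [Real.norm_eq_abs, abs_mul]
          exact mul_le_mul (D.abs_phi_le l g x) (D.hA g h) (abs_nonneg _)
            (div_nonneg (norm_nonneg _) (D.heps l).le)
        have h2 := tsum_of_norm_bounded ((D.hr.mul_left (‖x‖ / D.eps l)).hasSum) h1
        rw [tsum_mul_left] at h2
        calc _ ≤ _ := h2
          _ = _ := by ring)

lemma Phi_apply (l h : ℕ) (x : Y) : D.Phi l h x = ∑' g, D.phi l g x * D.A g h := rfl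

lemma Phi_zero (l h : ℕ) : ∀ x ∈ D.S, D.Phi l h x = 0 := by
  refine D.mem_S_closed (isClosed_eq (D.Phi l h).continuous continuous_const) (map_zero _)
    (fun l' k g _ => ?_) ?_ ?_
  · rw [Phi_apply]
    by_cases hl : l' = l
    · simp only [phi_J, hl, if_true, row_apply]
      exact D.hsq g h
    · simp [phi_J, hl]
  · intro x y hx hy
    rw [map_add, hx, hy, add_zero]
  · intro c x hx
    rw [map_smul, hx, smul_zero]

/-- tails -/
noncomputable def tail (k : ℕ) : ℝ := ∑' g, D.r (g + k)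

lemma summable_tail (k : ℕ) : Summable (fun g => D.r (g + k)) :=
  (summable_nat_add_iff k).mpr D.hr

lemma tail_nonneg (k : ℕ) : 0 ≤ D.tail k := tsum_nonneg (fun g => D.r_nonneg _)

lemma tendsto_tail : Tendsto D.tail atTop (𝓝 0) := tendsto_sum_nat_add D.r

lemma norm_psum_le (l k : ℕ) (x : Y) (hx : x ∈ D.S) :
    ‖∑ g ∈ Finset.range k, D.phi l g x • D.row g‖ ≤ ‖x‖ / D.eps l * D.tail k := by
  have h0 : 0 ≤ ‖x‖ / D.eps l := div_nonneg (norm_nonneg _) (D.heps l).le
  refine norm_le _ _ (mul_nonneg h0 (D.tail_nonneg k)) (fun h => ?_)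
  have h1 : (∑ g ∈ Finset.range k, D.phi l g x • D.row g : Y) h =
      ∑ g ∈ Finset.range k, D.phi l g x * D.A g h := by
    rw [lp.coeFn_sum, Finset.sum_apply]
    refine Finset.sum_congr rfl (fun g _ => ?_)
    rw [lp.coeFn_smul, Pi.smul_apply, smul_eq_mul, row_apply]
  have h2 := (D.summable_phi l h x).sum_add_tsum_nat_add k
  have h3 := D.Phi_zero l h x hx
  rw [Phi_apply] at h3
  rw [h3] at h2
  have h4 : ∑ g ∈ Finset.range k, D.phi l g x * D.A g h =
      - ∑' g, D.phi l (g + k) x * D.A (g + k) h := by linarith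
  rw [h1, h4, abs_neg]
  have h5 : ∀ g, ‖D.phi l (g + k) x * D.A (g + k) h‖ ≤ (‖x‖ / D.eps l) * D.r (g + k) := fun g => by
    rw [Real.norm_eq_abs, abs_mul]
    exact mul_le_mul (D.abs_phi_le l _ x) (D.hA _ h) (abs_nonneg _) h0
  have h6 := tsum_of_norm_bounded (((D.summable_tail k).mul_left (‖x‖ / D.eps l)).hasSum) h5
  rw [tsum_mul_left] at h6
  exact h6

/-- the vectors of block l -/
noncomputable def v (l k g : ℕ) : D.S :=
  if h : g < k then ⟨D.J l k (D.row g), D.gen_mem l k g h⟩ else 0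

lemma v_coe (l k g : ℕ) (h : g < k) : ((D.v l k g : D.S) : Y) = D.J l k (D.row g) := by
  unfold v
  rw [dif_pos h]

noncomputable def Theta (l : ℕ) (T : D.S →L[ℝ] D.S) (k : ℕ) : ℝ :=
  ∑ g ∈ Finset.range k, D.phi l g (T (D.v l k g) : D.S)

lemma norm_comb_le (l k : ℕ) (z : D.S) :
    ‖∑ g ∈ Finset.range k, D.phi l g z • D.v l k g‖ ≤ ‖z‖ / D.eps l * D.tail k := by
  have h1 : ((∑ g ∈ Finset.range k, D.phi l g z • D.v l k g : D.S) : Y) =
      D.J l k (∑ g ∈ Finset.range k, D.phi l g z • D.row g) := by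
    rw [map_sum, AddSubmonoidClass.coe_finsetSum]
    refine Finset.sum_congr rfl (fun g hg => ?_)
    rw [Submodule.coe_smul, map_smul, D.v_coe l k g (Finset.mem_range.mp hg)]
  have h2 : ‖∑ g ∈ Finset.range k, D.phi l g z • D.v l k g‖ =
      ‖((∑ g ∈ Finset.range k, D.phi l g z • D.v l k g : D.S) : Y)‖ := rfl
  rw [h2, h1]
  exact (D.norm_J_le l k _).trans (D.norm_psum_le l k z z.2)

lemma Theta_bound (l : ℕ) (T : D.S →L[ℝ] D.S)
    (hT : FiniteDimensional ℝ (LinearMap.range (T : D.S →ₗ[ℝ] D.S))) :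
    ∃ c : ℝ, ∀ k, |D.Theta l T k| ≤ c * D.tail k := by
  set Rg := LinearMap.range (T : D.S →ₗ[ℝ] D.S) with hRg
  let b := Module.finBasis ℝ Rg
  let T' : D.S →L[ℝ] Rg := T.codRestrict Rg (fun x => ⟨x, rfl⟩)
  let f : Fin (Module.finrank ℝ Rg) → (D.S →L[ℝ] ℝ) := fun j =>
    (LinearMap.toContinuousLinearMap (b.coord j)).comp T'
  have hf : ∀ x, T x = ∑ j, f j x • ((b j : Rg) : D.S) := by
    intro x
    have h1 := b.sum_repr (T' x)
    have h2 : ((T' x : Rg) : D.S) = T x := rfl
    rw [← h2, ← h1]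
    rw [AddSubmonoidClass.coe_finsetSum]
    exact Finset.sum_congr rfl (fun j _ => rfl)
  refine ⟨∑ j, ‖f j‖ * (‖((b j : Rg) : D.S)‖ / D.eps l), fun k => ?_⟩
  have h3 : D.Theta l T k =
      ∑ j, f j (∑ g ∈ Finset.range k, D.phi l g ((b j : Rg) : D.S) • D.v l k g) := by
    unfold Theta
    have : ∀ g ∈ Finset.range k, D.phi l g (T (D.v l k g) : D.S) =
        ∑ j, D.phi l g ((b j : Rg) : D.S) * f j (D.v l k g) := by
      intro g _
      rw [hf, AddSubmonoidClass.coe_finsetSum, phi_sum]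
      refine Finset.sum_congr rfl (fun j _ => ?_)
      rw [Submodule.coe_smul, phi_smul, mul_comm]
    rw [Finset.sum_congr rfl this, Finset.sum_comm]
    refine Finset.sum_congr rfl (fun j _ => ?_)
    rw [map_sum]
    refine Finset.sum_congr rfl (fun g _ => ?_)
    rw [map_smul, smul_eq_mul]
  rw [h3, Finset.sum_mul]
  refine (Finset.abs_sum_le_sum_abs _ _).trans (Finset.sum_le_sum (fun j _ => ?_))
  have h4 := (f j).le_opNorm (∑ g ∈ Finset.range k, D.phi l g ((b j : Rg) : D.S) • D.v l k g)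
  rw [Real.norm_eq_abs] at h4
  refine h4.trans ?_
  rw [mul_assoc]
  exact mul_le_mul_of_nonneg_left (D.norm_comb_le l k _) (norm_nonneg (f j))

lemma abs_sum_diag (k : ℕ) : |∑ g ∈ Finset.range k, D.A g g - 1| ≤ D.tail k := by
  have hs : Summable (fun g => D.A g g) :=
    Summable.of_norm_bounded D.hr (fun g => by simpa using D.hA g g)
  have h2 := hs.sum_add_tsum_nat_add k
  rw [D.htr] at h2
  have h4 : ∑ g ∈ Finset.range k, D.A g g - 1 = - ∑' g, D.A (g + k) (g + k) := by linarith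
  rw [h4, abs_neg]
  have h5 : ∀ g, ‖D.A (g + k) (g + k)‖ ≤ D.r (g + k) := fun g => by
    rw [Real.norm_eq_abs]; exact D.hA _ _
  exact tsum_of_norm_bounded (D.summable_tail k).hasSum h5

lemma sum_Ico_le (M k : ℕ) : ∑ g ∈ Finset.Ico M k, D.r g ≤ D.tail M := by
  rw [Finset.sum_Ico_eq_sum_range]
  have h := (D.summable_tail M).sum_le_tsum (Finset.range (k - M)) (fun g _ => D.r_nonneg _)
  refine le_trans (le_of_eq ?_) h
  exact Finset.sum_congr rfl (fun g _ => by rw [add_comm])

theorem not_BAP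
    (hM : ∀ l : ℕ, ∃ M, (∀ g, g < M → D.w l g = 1) ∧
      ((l + 1 : ℝ) / D.eps l + 1) * D.tail M ≤ 1 / 4)
    (hE : ∀ l : ℕ, (l + 1 : ℝ) * D.eps l * ∑' g, D.r g ≤ 1 / 4) :
    ¬ ∃ C : ℝ, ∀ K : Set D.S, IsCompact K → ∀ ε : ℝ, 0 < ε →
        ∃ T : D.S →L[ℝ] D.S, FiniteDimensional ℝ (LinearMap.range (T : D.S →ₗ[ℝ] D.S)) ∧
          ‖T‖ ≤ C ∧ ∀ x ∈ K, ‖T x - x‖ ≤ ε := by
  rintro ⟨C, hC⟩
  obtain ⟨l, hl⟩ := exists_nat_ge C
  obtain ⟨M, hM1, hM2⟩ := hM l
  have hE' := hE l
  set c : ℝ := (l : ℝ) + 1 with hc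
  have hc0 : 0 < c := by positivity
  have he := D.heps l
  obtain ⟨T, hTf, hTn, hTa⟩ := hC ((fun g => D.v l M g) '' (Finset.range M : Set ℕ))
    ((Finset.finite_toSet _).image _).isCompact (1 / (4 * (M + 1))) (by positivity)
  have hTc : ‖T‖ ≤ c := by linarith
  obtain ⟨c1, hc1⟩ := D.Theta_bound l T hTf
  -- choose k
  have ht := D.tendsto_tail
  have ht2 : Tendsto (fun k => (|c1| + 1) * D.tail k) atTop (𝓝 0) := by
    simpa using ht.const_mul (|c1| + 1)
  obtain ⟨k1, hk1⟩ := eventually_atTop.mp (ht2.eventually_lt_const (show (0 : ℝ) < 1 / 8 by norm_num))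
  set k := max k1 M with hk
  have hkM : M ≤ k := le_max_right _ _
  have hk2 := hk1 k (le_max_left _ _)
  have hTh := hc1 k
  have hdg := D.abs_sum_diag k
  have htl := D.tail_nonneg k
  have hTh' : |D.Theta l T k| ≤ |c1| * D.tail k :=
    hTh.trans (mul_le_mul_of_nonneg_right (le_abs_self _) htl)
  -- termwise bound
  have hterm : ∀ g ∈ Finset.range k, |D.phi l g (T (D.v l k g) : D.S) - D.A g g| ≤
      if g < M then c * D.eps l * D.r g + 1 / (4 * (M + 1)) else (c / D.eps l + 1) * D.r g := by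
    intro g hg
    have hgk := Finset.mem_range.mp hg
    have hr0 := D.r_nonneg g
    split_ifs with hgM
    · have hw := hM1 g hgM
      have hv : D.phi l g (D.v l M g : D.S) = D.A g g := by
        rw [D.v_coe l M g hgM, phi_J, if_pos rfl, row_apply]
      have e1 : D.phi l g (T (D.v l k g) : D.S) - D.A g g =
          D.phi l g (T (D.v l k g - D.v l M g) : D.S) +
            D.phi l g ((T (D.v l M g) - D.v l M g : D.S) : Y) := by
        rw [map_sub, Submodule.coe_sub, Submodule.coe_sub, phi_sub, phi_sub, hv]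
        ring
      rw [e1]
      have b1 : |D.phi l g (T (D.v l k g - D.v l M g) : D.S)| ≤ c * D.eps l * D.r g := by
        have h1 := D.abs_phi_le_w l g (T (D.v l k g - D.v l M g) : D.S)
        rw [hw, div_one] at h1
        have h2 : ‖T (D.v l k g - D.v l M g)‖ ≤ c * ‖D.v l k g - D.v l M g‖ :=
          T.le_of_opNorm_le hTc _
        have h3 : ‖D.v l k g - D.v l M g‖ ≤ D.eps l * D.r g := by
          have h4 : ‖D.v l k g - D.v l M g‖ = ‖((D.v l k g - D.v l M g : D.S) : Y)‖ := rfl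
          rw [h4, Submodule.coe_sub, D.v_coe l k g hgk, D.v_coe l M g hgM]
          exact (D.norm_J_sub_le l k M _).trans
            (mul_le_mul_of_nonneg_left (D.norm_row_le g) he.le)
        calc _ ≤ _ := h1
          _ ≤ c * ‖D.v l k g - D.v l M g‖ := h2
          _ ≤ c * (D.eps l * D.r g) := mul_le_mul_of_nonneg_left h3 hc0.le
          _ = _ := by ring
      have b2 : |D.phi l g ((T (D.v l M g) - D.v l M g : D.S) : Y)| ≤ 1 / (4 * (M + 1)) := by
        have h1 := D.abs_phi_le_w l g ((T (D.v l M g) - D.v l M g : D.S) : Y)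
        rw [hw, div_one] at h1
        refine h1.trans ?_
        exact hTa _ ⟨g, by simpa using hgM, rfl⟩
      exact (abs_add_le _ _).trans (add_le_add b1 b2)
    · have b1 : |D.phi l g (T (D.v l k g) : D.S)| ≤ c / D.eps l * D.r g := by
        have h1 := D.abs_phi_le l g (T (D.v l k g) : D.S)
        have h2 : ‖T (D.v l k g)‖ ≤ c * ‖D.v l k g‖ := T.le_of_opNorm_le hTc _
        have h3 : ‖D.v l k g‖ ≤ D.r g := by
          have h4 : ‖D.v l k g‖ = ‖((D.v l k g : D.S) : Y)‖ := rfl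
          rw [h4, D.v_coe l k g hgk]
          exact (D.norm_J_le l k _).trans (D.norm_row_le g)
        have h5 : ‖((T (D.v l k g) : D.S) : Y)‖ ≤ c * D.r g :=
          h2.trans (mul_le_mul_of_nonneg_left h3 hc0.le)
        calc _ ≤ _ := h1
          _ ≤ c * D.r g / D.eps l := div_le_div_of_nonneg_right h5 he.le
          _ = _ := by ring
      have b2 := D.hA g g
      calc _ ≤ |D.phi l g (T (D.v l k g) : D.S)| + |D.A g g| := abs_sub _ _
        _ ≤ c / D.eps l * D.r g + D.r g := add_le_add b1 b2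
        _ = _ := by ring
  have hsum : |D.Theta l T k - ∑ g ∈ Finset.range k, D.A g g| ≤ 3 / 4 := by
    unfold Theta
    rw [← Finset.sum_sub_distrib]
    refine (Finset.abs_sum_le_sum_abs _ _).trans ?_
    refine (Finset.sum_le_sum hterm).trans ?_
    rw [Finset.range_eq_Ico, ← Finset.sum_Ico_consecutive _ (Nat.zero_le M) hkM]
    have s1 : ∑ g ∈ Finset.Ico 0 M, (if g < M then c * D.eps l * D.r g + 1 / (4 * (M + 1))
        else (c / D.eps l + 1) * D.r g) ≤ 1 / 4 + 1 / 4 := by
      have s2 : ∑ g ∈ Finset.Ico 0 M, (if g < M then c * D.eps l * D.r g + 1 / (4 * ((M : ℝ) + 1))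
          else (c / D.eps l + 1) * D.r g) =
          ∑ g ∈ Finset.range M, (c * D.eps l * D.r g + 1 / (4 * ((M : ℝ) + 1))) := by
        rw [← Finset.range_eq_Ico]
        exact Finset.sum_congr rfl (fun g hg => by rw [if_pos (Finset.mem_range.mp hg)])
      rw [s2, Finset.sum_add_distrib, ← Finset.mul_sum]
      have s3 : ∑ g ∈ Finset.range M, D.r g ≤ ∑' g, D.r g :=
        D.hr.sum_le_tsum _ (fun g _ => D.r_nonneg g)
      have s4 : c * D.eps l * ∑ g ∈ Finset.range M, D.r g ≤ 1 / 4 :=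
        (mul_le_mul_of_nonneg_left s3 (by positivity)).trans hE'
      have s5 : ∑ _g ∈ Finset.range M, 1 / (4 * ((M : ℝ) + 1)) ≤ 1 / 4 := by
        rw [Finset.sum_const, Finset.card_range, nsmul_eq_mul, mul_one_div,
          div_le_div_iff₀ (by positivity) (by norm_num)]
        nlinarith
      exact add_le_add s4 s5
    have s6 : ∑ g ∈ Finset.Ico M k, (if g < M then c * D.eps l * D.r g + 1 / (4 * (M + 1))
        else (c / D.eps l + 1) * D.r g) ≤ 1 / 4 := by
      have s7 : ∑ g ∈ Finset.Ico M k, (if g < M then c * D.eps l * D.r g + 1 / (4 * ((M : ℝ) + 1))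
          else (c / D.eps l + 1) * D.r g) = (c / D.eps l + 1) * ∑ g ∈ Finset.Ico M k, D.r g := by
        rw [Finset.mul_sum]
        refine Finset.sum_congr rfl (fun g hg => ?_)
        rw [if_neg (by have := (Finset.mem_Ico.mp hg).1; omega)]
      rw [s7]
      exact (mul_le_mul_of_nonneg_left (D.sum_Ico_le M k) (by positivity)).trans hM2
    calc _ ≤ _ := add_le_add s1 s6
      _ = _ := by norm_num
  have f1 := abs_le.mp hsum
  have f2 := abs_le.mp hdg
  have f3 := abs_le.mp hTh'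
  have f4 : (|c1| + 1) * D.tail k = |c1| * D.tail k + D.tail k := by ring
  rw [f4] at hk2
  have f5 : 0 ≤ |c1| * D.tail k := mul_nonneg (abs_nonneg _) htl
  linarith [f1.1, f1.2, f2.1, f2.2, f3.1, f3.2]

end Data

end Pool.Agent.Helper623.ApNoBap
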