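import Pool.Agent.Helper623.Ap.ApE
set_option autoImplicit false
open scoped Topology
open Filter

namespace Pool.Agent.Helper623.ApNoBap

lemma hasSum_sq (g h : G) : HasSum (fun k => A g k * A k h) 0 := by
  have h1 := ((hasSum_Lev_mul (g.1 + 1) (tens g.2.1 (O (ty g.1 g.2.1) g.1 g.2.2)) h).mul_left
      ((1 / 2 : ℝ) ^ (g.1 + 1))).sub
    ((hasSum_Lev_mul g.1 (O (ty g.1 g.2.1) g.1 g.2.2) h).mul_left ((1 / 2 : ℝ) ^ g.1 / 3))
  rw [mul_zero, mul_zero, sub_zero] at h1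
  refine h1.congr_fun ?_
  intro k
  simp only [A]
  ring

/-- values -/
lemma tau_tens (n : ℕ) (i k : Fin 3) (p h : Idx n) :
    tau n (tens i (O (ty n i) n p)) (k, h) = (∑ c, u k c * ut i c) * ov (ty n k) (ty n i) n h p := by
  unfold tau ov
  simp only [tens_cons]
  rw [Finset.mul_sum]
  refine Finset.sum_congr rfl (fun s _ => ?_)
  rw [Finset.sum_mul, Finset.mul_sum]
  exact Finset.sum_congr rfl (fun c _ => by ring)

lemma sig_tens (n : ℕ) (i k : Fin 3) (p : Idx n) (q : Bool) (h : Idx n) :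
    sig (n + 1) (tens i (O (ty n i) n p)) (k, cons q h) =
      (∑ c, a (ty (n + 1) k) q c * ut i c) * ov (ty (n + 1) k) (ty n i) n h p := by
  unfold sig ov
  simp only
  rw [sum_idx_succ, Finset.sum_mul]
  refine Finset.sum_congr rfl (fun c _ => ?_)
  rw [Finset.mul_sum]
  refine Finset.sum_congr rfl (fun s _ => ?_)
  rw [O_succ, tens_cons]
  ring

lemma sig_bas (n : ℕ) (i k : Fin 3) (p h : Idx n) :
    sig n (O (ty n i) n p) (k, h) = ov (ty n k) (ty n i) n h p := rfl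

lemma tau_bas (n : ℕ) (i k : Fin 3) (q : Bool) (p h : Idx n) :
    tau n (O (ty (n + 1) i) (n + 1) (cons q p)) (k, h) =
      (∑ c, u k c * a (ty (n + 1) i) q c) * ov (ty n k) (ty (n + 1) i) n h p := by
  unfold tau ov
  simp only [O_succ]
  rw [Finset.mul_sum]
  refine Finset.sum_congr rfl (fun s _ => ?_)
  rw [Finset.sum_mul, Finset.mul_sum]
  exact Finset.sum_congr rfl (fun c _ => by ring)

lemma abs_ov_le_one_zero (s t : Fin 6) (g h : Idx 0) : ov s t 0 g h = 1 := by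
  unfold ov
  rw [sum_idx_zero]
  simp [O]

/-- the bound for the rows -/
noncomputable def r (g : G) : ℝ := (1 / 2) ^ g.1 * (49 / 50) ^ g.1

lemma Lev_succ_apply (m : ℕ) (x : Idx (m + 1) → ℝ) (g : G) :
    Lev (m + 1) x g = blk m (tau m x) g + blk (m + 1) (sig (m + 1) x) g := rfl

lemma A_bound_same (n : ℕ) (i k : Fin 3) (p h : Idx n) :
    |A ⟨n, (i, p)⟩ ⟨n, (k, h)⟩| ≤ (1 / 2) ^ n * (49 / 50) ^ n := by
  rw [A_mk, Lev_succ_apply, blk_same, blk_ne (n + 1) n (by omega), add_zero, tau_tens]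
  cases n with
  | zero =>
    simp only [Lev, abs_ov_le_one_zero]
    by_cases hk : k = i
    · subst hk
      rw [dot_same]; norm_num [abs_le]
    · rw [dot_ne i k hk]; norm_num [abs_le]
  | succ m =>
    rw [Lev_succ_apply, blk_ne m (m + 1) (by omega), zero_add, blk_same, sig_bas]
    by_cases hk : k = i
    · subst hk
      rw [dot_same]
      have : (1 / 2 : ℝ) ^ (m + 1 + 1) * (2 / 3 * ov (ty (m + 1) k) (ty (m + 1) k) (m + 1) h p) -
          (1 / 2) ^ (m + 1) / 3 * ov (ty (m + 1) k) (ty (m + 1) k) (m + 1) h p = 0 := by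
        rw [pow_succ (1 / 2 : ℝ) (m + 1)]; ring
      rw [this, abs_zero]
      positivity
    · rw [dot_ne i k hk]
      have h1 := ov_le (ty (m + 1) k) (ty (m + 1) i) (ty_ne_of_ne _ _ _ hk) (m + 1) h p
      have : (1 / 2 : ℝ) ^ (m + 1 + 1) * (-(1 / 3) * ov (ty (m + 1) k) (ty (m + 1) i) (m + 1) h p) -
          (1 / 2) ^ (m + 1) / 3 * ov (ty (m + 1) k) (ty (m + 1) i) (m + 1) h p =
          (1 / 2) ^ (m + 1) * (-(1 / 2) * ov (ty (m + 1) k) (ty (m + 1) i) (m + 1) h p) := by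
        rw [pow_succ (1 / 2 : ℝ) (m + 1)]; ring
      rw [this, abs_mul, abs_of_pos (by positivity : (0 : ℝ) < (1 / 2) ^ (m + 1))]
      refine mul_le_mul_of_nonneg_left ?_ (by positivity)
      rw [abs_mul]
      have h2 : |(-(1 / 2) : ℝ)| ≤ 1 := by norm_num [abs_le]
      calc _ ≤ 1 * |ov (ty (m + 1) k) (ty (m + 1) i) (m + 1) h p| :=
            mul_le_mul_of_nonneg_right h2 (abs_nonneg _)
        _ ≤ _ := by rw [one_mul]; exact h1

lemma A_bound_succ (n : ℕ) (i k : Fin 3) (p : Idx n) (h : Idx (n + 1)) :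
    |A ⟨n, (i, p)⟩ ⟨n + 1, (k, h)⟩| ≤ (1 / 2) ^ n * (49 / 50) ^ n := by
  obtain ⟨q, h, rfl⟩ := idx_cases h
  rw [A_mk, Lev_succ_apply, blk_same, blk_ne n (n + 1) (by omega), zero_add, sig_tens]
  have hz : Lev n (O (ty n i) n p) ⟨n + 1, (k, cons q h)⟩ = 0 := by
    cases n with
    | zero => rfl
    | succ m =>
      rw [Lev_succ_apply, blk_ne m (m + 1 + 1) (by omega), blk_ne (m + 1) (m + 1 + 1) (by omega),
        add_zero]
  rw [hz, mul_zero, sub_zero, abs_mul, abs_of_pos (by positivity : (0 : ℝ) < (1 / 2) ^ (n + 1)),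
    abs_mul]
  have h1 := ov_le (ty (n + 1) k) (ty n i) (ty_ne_succ _ _ _) n h p
  have h2 := a_ut (ty (n + 1) k) q i
  have h3 : (1 / 2 : ℝ) ^ (n + 1) ≤ (1 / 2) ^ n := by
    rw [pow_succ]; linarith [show (0 : ℝ) < (1 / 2) ^ n by positivity]
  refine mul_le_mul h3 ?_ (by positivity) (by positivity)
  calc _ ≤ 1 * (49 / 50) ^ n := mul_le_mul h2 h1 (abs_nonneg _) (by norm_num)
    _ = _ := one_mul _

lemma A_bound_pred (n : ℕ) (i k : Fin 3) (p : Idx (n + 1)) (h : Idx n) :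
    |A ⟨n + 1, (i, p)⟩ ⟨n, (k, h)⟩| ≤ (1 / 2) ^ (n + 1) * (49 / 50) ^ (n + 1) := by
  obtain ⟨q, p, rfl⟩ := idx_cases p
  rw [A_mk, Lev_succ_apply (n + 1), blk_ne (n + 1) n (by omega), blk_ne (n + 1 + 1) n (by omega),
    add_zero, mul_zero, zero_sub, Lev_succ_apply, blk_same, blk_ne (n + 1) n (by omega), add_zero,
    tau_bas, abs_neg, abs_mul, abs_mul,
    abs_of_pos (by positivity : (0 : ℝ) < (1 / 2) ^ (n + 1) / 3)]
  have h1 := ov_le (ty n k) (ty (n + 1) i) (ty_ne_succ _ _ _).symm n h p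
  have h2 := u_a (ty (n + 1) i) q k
  have h3 : |∑ c, u k c * a (ty (n + 1) i) q c| * |ov (ty n k) (ty (n + 1) i) n h p| ≤
      2 * (49 / 50) ^ n := mul_le_mul h2 h1 (abs_nonneg _) (by norm_num)
  have h4 : (0 : ℝ) < (49 / 50) ^ n := by positivity
  calc (1 / 2 : ℝ) ^ (n + 1) / 3 * _ ≤ (1 / 2 : ℝ) ^ (n + 1) / 3 * (2 * (49 / 50) ^ n) :=
        mul_le_mul_of_nonneg_left h3 (by positivity)
    _ = (1 / 2 : ℝ) ^ (n + 1) * ((2 / 3) * (49 / 50) ^ n) := by ring
    _ ≤ (1 / 2 : ℝ) ^ (n + 1) * (49 / 50) ^ (n + 1) := by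
        refine mul_le_mul_of_nonneg_left ?_ (by positivity)
        rw [pow_succ']
        nlinarith

lemma A_far (n m : ℕ) (q : Fin 3 × Idx n) (q' : Fin 3 × Idx m) (h1 : m ≠ n) (h2 : m ≠ n + 1)
    (h3 : n ≠ m + 1) : A ⟨n, q⟩ ⟨m, q'⟩ = 0 := by
  rw [A_mk, Lev_succ_apply, blk_ne n m h1, blk_ne (n + 1) m h2, add_zero, mul_zero, zero_sub]
  cases n with
  | zero => simp [Lev]
  | succ n' =>
    rw [Lev_succ_apply, blk_ne n' m (by omega), blk_ne (n' + 1) m h1]
    simp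

lemma A_bound (g h : G) : |A g h| ≤ r g := by
  obtain ⟨n, i, p⟩ := g
  obtain ⟨m, k, h⟩ := h
  unfold r
  simp only
  by_cases h1 : m = n
  · subst h1
    exact A_bound_same m i k p h
  · by_cases h2 : m = n + 1
    · subst h2
      exact A_bound_succ n i k p h
    · by_cases h3 : n = m + 1
      · subst h3
        exact A_bound_pred m i k p h
      · rw [A_far n m _ _ h1 h2 h3, abs_zero]
        positivity

lemma A_diag_succ (m : ℕ) (q : Fin 3 × Idx (m + 1)) : A ⟨m + 1, q⟩ ⟨m + 1, q⟩ = 0 := by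
  obtain ⟨k, h⟩ := q
  rw [A_mk, Lev_succ_apply (m + 1), blk_same, blk_ne (m + 1 + 1) (m + 1) (by omega), add_zero,
    tau_tens, Lev_succ_apply, blk_ne m (m + 1) (by omega), zero_add, blk_same, sig_bas, dot_same,
    pow_succ (1 / 2 : ℝ) (m + 1)]
  ring

lemma A_diag_zero (q : Fin 3 × Idx 0) : A ⟨0, q⟩ ⟨0, q⟩ = 1 / 3 := by
  obtain ⟨k, h⟩ := q
  rw [A_mk, Lev_succ_apply, blk_same, blk_ne 1 0 (by omega), add_zero, tau_tens, dot_same,
    abs_ov_le_one_zero]
  simp only [Lev]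
  norm_num

lemma hasSum_trace : HasSum (fun g : G => A g g) 1 := by
  classical
  have h1 : (1 : ℝ) = ∑ k ∈ (Finset.univ.map (Function.Embedding.sigmaMk 0) : Finset G), A k k := by
    rw [Finset.sum_map]
    have : ∀ q : Fin 3 × Idx 0, A (Function.Embedding.sigmaMk (β := fun n => Fin 3 × Idx n) 0 q)
        (Function.Embedding.sigmaMk (β := fun n => Fin 3 × Idx n) 0 q) = 1 / 3 :=
      fun q => A_diag_zero q
    rw [Finset.sum_congr rfl (fun q _ => this q), Finset.sum_const, Finset.card_univ,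
      Fintype.card_prod, card_idx, Fintype.card_fin]
    norm_num
  rw [h1]
  refine hasSum_sum_of_ne_finset_zero (fun k hk => ?_)
  obtain ⟨m, q⟩ := k
  cases m with
  | zero => exact absurd (Finset.mem_map.mpr ⟨q, Finset.mem_univ _, rfl⟩) hk
  | succ m => exact A_diag_succ m q

lemma summable_r : Summable r := by
  have hnn : ∀ g : G, 0 ≤ r g := fun g => by unfold r; positivity
  rw [summable_sigma_of_nonneg hnn]
  refine ⟨fun n => (hasSum_fintype _).summable, ?_⟩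
  have h1 : ∀ n : ℕ, ∑' q : Fin 3 × Idx n, r ⟨n, q⟩ = 3 * (49 / 50 : ℝ) ^ n := by
    intro n
    rw [tsum_fintype]
    unfold r
    simp only
    rw [Finset.sum_const, Finset.card_univ, Fintype.card_prod, card_idx, Fintype.card_fin,
      nsmul_eq_mul]
    push_cast
    have : (2 : ℝ) ^ n * (1 / 2) ^ n = 1 := by rw [← mul_pow]; norm_num
    calc (3 * 2 ^ n : ℝ) * ((1 / 2) ^ n * (49 / 50) ^ n) =
          3 * ((2 : ℝ) ^ n * (1 / 2) ^ n) * (49 / 50) ^ n := by ring
      _ = _ := by rw [this]; ring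
  simp_rw [h1]
  exact (summable_geometric_of_lt_one (by norm_num) (by norm_num)).mul_left 3

lemma tendsto_A (g : G) : Tendsto (A g) cofinite (𝓝 0) := by
  classical
  refine tendsto_nhds_of_eventually_eq ?_
  rw [eventually_cofinite]
  refine ((Finset.range (g.1 + 2)).sigma (fun m => (Finset.univ : Finset (Fin 3 × Idx m)))
    ).finite_toSet.subset (fun h hh => ?_)
  obtain ⟨n, q⟩ := g
  obtain ⟨m, q'⟩ := h
  rw [Finset.mem_coe, Finset.mem_sigma, Finset.mem_range]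
  refine ⟨?_, Finset.mem_univ _⟩
  by_contra hc
  simp only at hc
  exact hh (A_far n m q q' (by omega) (by omega) (by omega))

instance : Infinite G :=
  Infinite.of_injective (fun n : ℕ => (⟨n, (0, Classical.choice (instNe n))⟩ : G))
    (fun n m h => congrArg Sigma.fst h)

noncomputable def eG : G ≃ ℕ := (Classical.choice (nonempty_denumerable G)).eqv

end Pool.Agent.Helper623.ApNoBap
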